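import Mathlib
import Pool.Agent.Tri5.Main

/-!
# Two triangular numbers and two powers of 5: a local-global principle for almost all integers
-/

set_option autoImplicit false

namespace Pool.Agent.Results.MP_68fb2d_nt.LocalGlobal

/-- `n` is a sum of two triangular numbers and two powers of `5`. -/
def Representable (n : ℕ) : Prop :=
  ∃ a b c d : ℕ, n = a * (a + 1) / 2 + b * (b + 1) / 2 + 5 ^ c + 5 ^ d

/-- Some exponents `c, d ≥ 1` are such that no prime `p = 3 mod 4` dividing `5 ^ L - 1` divides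
`4 n + 1 - 4 * 5 ^ c - 4 * 5 ^ d`. -/
def Unobstructed (L n : ℕ) : Prop :=
  ∃ c d : ℕ, 1 ≤ c ∧ 1 ≤ d ∧ ∀ p : ℕ, p.Prime → p % 4 = 3 → p ∣ 5 ^ L - 1 →
    ¬ (p : ℤ) ∣ 4 * (n : ℤ) + 1 - 4 * 5 ^ c - 4 * 5 ^ d

/-- For every `ε > 0` there is an `L` such that all but at most `ε x` of the unobstructed `n < x`
are sums of two triangular numbers and two powers of `5`, for all large `x`. -/
theorem result (ε : ℝ) (hε : 0 < ε) : ∃ L : ℕ, 1 ≤ L ∧ ∃ x₀ : ℕ, ∀ x : ℕ, x₀ ≤ x →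
    (Nat.card {n : ℕ // n < x ∧ Unobstructed L n ∧ ¬ Representable n} : ℝ) ≤ ε * x := by
  obtain ⟨L, h1, -, x₀, h2⟩ := Pool.Agent.Tri5.main1 ε hε
  exact ⟨L, h1, x₀, h2⟩

end Pool.Agent.Results.MP_68fb2d_nt.LocalGlobal
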