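import Mathlib
import Pool.Agent.Tri5.Main

/-!
# Two triangular numbers and two powers of 5: lower density at least 9/10
-/

set_option autoImplicit false

namespace Pool.Agent.Results.MP_68fb2d_nt.LowerDensity

/-- `n` is a sum of two triangular numbers and two powers of `5`. -/
def Representable (n : ℕ) : Prop :=
  ∃ a b c d : ℕ, n = a * (a + 1) / 2 + b * (b + 1) / 2 + 5 ^ c + 5 ^ d

/-- For all large `x`, at least nine tenths of the `n < x` are sums of two triangular numbers and
two powers of `5`. -/
theorem result : ∃ x₀ : ℕ, ∀ x : ℕ, x₀ ≤ x →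
    (9 : ℝ) / 10 * x ≤ Nat.card {n : ℕ // n < x ∧ Representable n} :=
  Pool.Agent.Tri5.main2

end Pool.Agent.Results.MP_68fb2d_nt.LowerDensity
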