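import Pool.Agent.CRK5.Base

/-!
# MP_68fb2d_nt: integers all of whose representations have exponents of the same parity
-/

set_option autoImplicit false

open Finset

namespace Pool.Agent.Results.MP_68fb2d_nt.SameParity

open Pool.Agent.CRK5

/-- in every representation of `n` the two exponents have the same parity -/
def OnlySameParity (n : ℕ) : Prop :=
  ∀ a b c d : ℕ, n = a * (a + 1) / 2 + b * (b + 1) / 2 + 5 ^ c + 5 ^ d → c % 2 = d % 2

theorem two_squares (a b : ℕ) : ∃ x y : ℕ,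
    4 * (a * (a + 1) / 2 + b * (b + 1) / 2) + 1 = x ^ 2 + y ^ 2 := by
  have h1 : 2 * (a * (a + 1) / 2) = a * (a + 1) :=
    Nat.two_mul_div_two_of_even (Nat.even_mul_succ_self a)
  have h2 : 2 * (b * (b + 1) / 2) = b * (b + 1) :=
    Nat.two_mul_div_two_of_even (Nat.even_mul_succ_self b)
  have h3 : 4 * (a * (a + 1) / 2 + b * (b + 1) / 2) + 1 =
      2 * (a * (a + 1)) + 2 * (b * (b + 1)) + 1 := by
    linarith
  rw [h3]
  rcases le_total a b with h | h
  · obtain ⟨t, rfl⟩ := Nat.exists_eq_add_of_le h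
    exact ⟨2 * a + t + 1, t, by ring⟩
  · obtain ⟨t, rfl⟩ := Nat.exists_eq_add_of_le h
    exact ⟨2 * b + t + 1, t, by ring⟩

theorem key (P M n a b d m : ℕ) (h : Pre P M) (hm : Odd m) (hlt : m < P) (hM : M ∣ 4 * n + 1)
    (hr : n = a * (a + 1) / 2 + b * (b + 1) / 2 + 5 ^ (d + m) + 5 ^ d) : False := by
  obtain ⟨q, hq, h4, ho, hd⟩ := h.2.2.2 m hm (Nat.not_dvd_of_pos_of_lt hm.pos hlt)
  have : Fact q.Prime := ⟨hq⟩
  obtain ⟨x, y, hxy⟩ := two_squares a b
  generalize hw : padicValNat q (5 ^ m + 1) = w at ho hd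
  generalize hT : a * (a + 1) / 2 + b * (b + 1) / 2 = T at hxy hr
  have hs : (x ^ 2 + y ^ 2) + 4 * 5 ^ d * (5 ^ m + 1) = 4 * n + 1 := by
    rw [← hxy, hr, pow_add]
    ring
  have hs0 : x ^ 2 + y ^ 2 ≠ 0 := by
    rw [← hxy]
    exact Nat.succ_ne_zero _
  have hqw : q ^ w ∣ 5 ^ m + 1 := by
    rw [← hw]
    exact pow_padicValNat_dvd
  have h1 : q ^ (w + 1) ∣ (x ^ 2 + y ^ 2) + 4 * 5 ^ d * (5 ^ m + 1) := by
    rw [hs]
    exact hd.trans hM
  have h2 : q ^ w ∣ x ^ 2 + y ^ 2 :=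
    (Nat.dvd_add_left (hqw.mul_left _)).1 ((pow_dvd_pow q (Nat.le_succ w)).trans h1)
  have h3 : w ≤ padicValNat q (x ^ 2 + y ^ 2) := (padicValNat_dvd_iff_le hs0).1 h2
  have hc : Nat.Coprime (q ^ (w + 1)) (4 * 5 ^ d) := by
    apply Nat.Coprime.pow_left
    apply Nat.Coprime.mul_right
    · rw [show (4 : ℕ) = 2 ^ 2 by norm_num]
      apply Nat.Coprime.pow_right
      rw [Nat.coprime_primes hq Nat.prime_two]
      rintro rfl
      norm_num at h4
    · apply Nat.Coprime.pow_right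
      rw [Nat.coprime_primes hq Nat.prime_five]
      rintro rfl
      norm_num at h4
  have h5 : ¬ w + 1 ≤ padicValNat q (x ^ 2 + y ^ 2) := by
    intro h6
    have h7 : q ^ (w + 1) ∣ x ^ 2 + y ^ 2 := (padicValNat_dvd_iff_le hs0).2 h6
    have h8 : q ^ (w + 1) ∣ 4 * 5 ^ d * (5 ^ m + 1) := (Nat.dvd_add_right h7).1 h1
    have h9 : q ^ (w + 1) ∣ 5 ^ m + 1 := hc.dvd_of_dvd_mul_left h8
    have h10 : w + 1 ≤ padicValNat q (5 ^ m + 1) :=
      (padicValNat_dvd_iff_le (Nat.succ_ne_zero _)).1 h9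
    rw [hw] at h10
    omega
  have h6 : padicValNat q (x ^ 2 + y ^ 2) = w := by omega
  have h7 : q ∣ x ^ 2 + y ^ 2 := by
    apply dvd_of_one_le_padicValNat
    rw [h6]
    exact ho.pos
  have h8 : Even (padicValNat q (x ^ 2 + y ^ 2)) :=
    (Nat.eq_sq_add_sq_iff.1 ⟨x, y, rfl⟩) q (Nat.mem_primeFactors.2 ⟨hq, h7, hs0⟩) h4
  rw [h6] at h8
  exact (Nat.not_even_iff_odd.2 ho) h8

theorem dead (P M n : ℕ) (h : Pre P M) (hn : n < 5 ^ P) (hM : M ∣ 4 * n + 1) :
    OnlySameParity n := by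
  intro a b c d hr
  by_contra hne
  have hc : c < P := by
    have h1 : 5 ^ c < 5 ^ P := by
      refine lt_of_le_of_lt ?_ hn
      rw [hr]
      exact (Nat.le_add_left _ _).trans (Nat.le_add_right _ _)
    exact (Nat.pow_lt_pow_iff_right (by norm_num)).1 h1
  have hd : d < P := by
    have h1 : 5 ^ d < 5 ^ P := by
      refine lt_of_le_of_lt ?_ hn
      rw [hr]
      exact Nat.le_add_left _ _
    exact (Nat.pow_lt_pow_iff_right (by norm_num)).1 h1
  rcases le_total d c with hdc | hdc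
  · obtain ⟨m, rfl⟩ := Nat.exists_eq_add_of_le hdc
    exact key P M n a b d m h (by rw [Nat.odd_iff]; omega) (by omega) hM hr
  · obtain ⟨m, rfl⟩ := Nat.exists_eq_add_of_le hdc
    refine key P M n a b c m h (by rw [Nat.odd_iff]; omega) (by omega) hM ?_
    rw [hr]
    ring

theorem count (M x : ℕ) (hM : Odd M) :
    x / M ≤ ((range x).filter (fun n => M ∣ 4 * n + 1)).card := by
  have hr : ∃ r, r < M ∧ M ∣ 4 * r + 1 := by
    obtain ⟨k, rfl⟩ := hM
    rcases Nat.even_or_odd' k with ⟨j, rfl | rfl⟩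
    · exact ⟨j, by omega, ⟨1, by ring⟩⟩
    · exact ⟨3 * j + 2, by omega, ⟨3, by ring⟩⟩
  obtain ⟨r, hr, hd⟩ := hr
  have hM0 : 0 < M := hM.pos
  rw [← card_range (x / M)]
  apply card_le_card_of_injOn (fun t => r + M * t)
  · intro t ht
    have ht : t < x / M := mem_range.1 (mem_coe.1 ht)
    apply mem_coe.2
    rw [mem_filter, mem_range]
    refine ⟨?_, ?_⟩
    · have h1 : M * (t + 1) ≤ x := (Nat.mul_le_mul_left M ht).trans (Nat.mul_div_le x M)
      have h2 : M * (t + 1) = M * t + M := by ring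
      show r + M * t < x
      omega
    · have h3 : 4 * (r + M * t) + 1 = (4 * r + 1) + M * (4 * t) := by ring
      show M ∣ 4 * (r + M * t) + 1
      rw [h3]
      exact dvd_add hd (dvd_mul_right _ _)
  · intro s _ t _ hst
    have hst : r + M * s = r + M * t := hst
    exact Nat.eq_of_mul_eq_mul_left hM0 (Nat.add_left_cancel hst)

open Classical in
/-- for every `ε > 0` there are arbitrarily large `x` such that at least `x ^ (1 - ε)` of the
`n < x` have only representations with exponents of the same parity -/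
theorem result : ∀ ε : ℝ, 0 < ε → ∀ x0 : ℕ, ∃ x : ℕ, x0 ≤ x ∧
    (x : ℝ) ^ (1 - ε) ≤ (((range x).filter OnlySameParity).card : ℝ) := by
  intro ε hε x0
  obtain ⟨P, M, q, hI, hx, hq, h4, ho, hB⟩ := good ⌈5 / ε⌉₊ x0
  have hst := (step P M q hI.1 hq h4 ho).2
  have hbd := bound P M q hI hq ho
  have h11 := q_ge P M q hI hq h4 ho
  generalize M * q ^ (padicValNat q (5 ^ P + 1) + 1) = M' at hst hbd
  have hP : 1 ≤ P := hI.1.1.pos
  refine ⟨5 ^ (P * q), ?_, ?_⟩
  · have h1 : P * q < 5 ^ (P * q) := Nat.lt_pow_self (by norm_num)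
    nlinarith
  · have h1 : 5 ^ (P * q - 5 * P) ≤ ((range (5 ^ (P * q))).filter OnlySameParity).card := by
      calc 5 ^ (P * q - 5 * P) = 5 ^ (P * q) / 5 ^ (5 * P) := by
            rw [Nat.pow_div (by nlinarith) (by norm_num)]
        _ ≤ 5 ^ (P * q) / M' := Nat.div_le_div_left hbd hst.2.1.pos
        _ ≤ ((range (5 ^ (P * q))).filter (fun n => M' ∣ 4 * n + 1)).card := count _ _ hst.2.1
        _ ≤ ((range (5 ^ (P * q))).filter OnlySameParity).card := by
            apply card_le_card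
            intro n hn
            rw [mem_filter, mem_range] at hn ⊢
            exact ⟨hn.1, dead (P * q) M' n hst hn.1 hn.2⟩
    have h2 : ((5 ^ (P * q - 5 * P) : ℕ) : ℝ) ≤
        (((range (5 ^ (P * q))).filter OnlySameParity).card : ℝ) := by
      exact_mod_cast h1
    refine le_trans ?_ h2
    have hqe : 5 ≤ (q : ℝ) * ε := by
      have h3 : 5 / ε ≤ (q : ℝ) :=
        (Nat.le_ceil _).trans (by exact_mod_cast hB.le)
      rwa [div_le_iff₀ hε] at h3
    have hle : 5 * P ≤ P * q := by nlinarith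
    push_cast
    rw [← Real.rpow_natCast 5 (P * q), ← Real.rpow_mul (by norm_num),
      ← Real.rpow_natCast 5 (P * q - 5 * P)]
    apply Real.rpow_le_rpow_of_exponent_le (by norm_num)
    rw [Nat.cast_sub hle]
    push_cast
    have hP' : (1 : ℝ) ≤ P := by exact_mod_cast hP
    nlinarith

end Pool.Agent.Results.MP_68fb2d_nt.SameParity
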